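import Pool.Agent.U555.LN.Main

/-!
# Lipschitz spaces over nets are isomorphic to their countable `ℓ_∞`-sums

For every real normed space `X` (no completeness, separability or dimension assumption) and every
net `N` in `X`, with any base point, `Lip_0(N)` is linearly homeomorphic to the `ℓ_∞`-sum of
countably many copies of itself.
-/

set_option autoImplicit false

namespace Pool.Agent.Results.MP_1d1573_an.NetSumIso

open Pool.Agent.H266R3.LF
open scoped ENNReal

/-- `N` is a net in `X`: its points are `ε`-separated and every point of `X` is at distance less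
than `δ` from some point of `N`. -/
def IsNet {X : Type} [NormedAddCommGroup X] (N : Set X) : Prop :=
  ∃ ε δ : ℝ, 0 < ε ∧ 0 < δ ∧ (∀ x ∈ N, ∀ y ∈ N, x ≠ y → ε ≤ dist x y) ∧
    ∀ x : X, ∃ y ∈ N, dist x y < δ

/-- **Main theorem** (`Lip0 N o` is the space of Lipschitz functions on `N` vanishing at `o`, normed
by the least Lipschitz constant; `lp (fun _ : ℕ => Y) ∞` is the `ℓ_∞`-sum of countably many copies
of `Y`). -/
theorem result (X : Type) [NormedAddCommGroup X] [NormedSpace ℝ X] (N : Set X) (hN : IsNet N)
    (o : N) : Nonempty (Lip0 N o ≃L[ℝ] lp (fun _ : ℕ => Lip0 N o) ∞) :=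
  Pool.Agent.U555.LN.main hN o

end Pool.Agent.Results.MP_1d1573_an.NetSumIso
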